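import Mathlib

open Filter Topology
open scoped RealInnerProductSpace

namespace H11.P2GD

variable {E : Type} [NormedAddCommGroup E] [InnerProductSpace ℝ E] [FiniteDimensional ℝ E]

/-- the Bouligand tangent cone. -/
def Tan (X : Set E) (x : E) : Set E :=
  {v | ∃ (t : ℕ → ℝ) (w : ℕ → E), (∀ k, 0 < t k) ∧ Antitone t ∧ Tendsto t atTop (𝓝 0) ∧
    Tendsto w atTop (𝓝 v) ∧ ∀ k, x + t k • w k ∈ X}

/-- `p` is a nearest point of `K` to `w`. -/
def IsProj (K : Set E) (w p : E) : Prop := p ∈ K ∧ ∀ q ∈ K, ‖w - p‖ ≤ ‖w - q‖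

def Stationary (X : Set E) (f : E → ℝ) (x : E) : Prop :=
  x ∈ X ∧ ∀ v ∈ Tan X x, 0 ≤ ⟪gradient f x, v⟫

/-- no apocalypse: `s_f (x k) = ‖p k‖` with `p k` a projection of `-∇f (x k)` on the tangent cone. -/
def ApocalypseFree (X : Set E) : Prop :=
  ∀ (f : E → ℝ) (U : Set E), IsOpen U → X ⊆ U → ContDiffOn ℝ 1 f U →
    ∀ (x : E) (xs p : ℕ → E), (∀ k, xs k ∈ X) → Tendsto xs atTop (𝓝 x) →
      (∀ k, IsProj (Tan X (xs k)) (-gradient f (xs k)) (p k)) →
      Tendsto (fun k => ‖p k‖) atTop (𝓝 0) → Stationary X f x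

/-- a run of P²GD with Armijo backtracking terminating at every iteration: directions `d k`,
selected trial points `y k j` for the step `a * β ^ j`, accepted index `J k`. -/
def IsRun (X : Set E) (f : E → ℝ) (a β c : ℝ) (x : ℕ → E) : Prop :=
  x 0 ∈ X ∧ ∃ (d : ℕ → E) (y : ℕ → ℕ → E) (J : ℕ → ℕ), ∀ k,
    IsProj (Tan X (x k)) (-gradient f (x k)) (d k) ∧
    (∀ j, IsProj X (x k + (a * β ^ j) • d k) (y k j)) ∧
    f (y k (J k)) ≤ f (x k) - c * (a * β ^ (J k)) * ‖d k‖ ^ 2 ∧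
    (∀ j < J k, ¬ f (y k j) ≤ f (x k) - c * (a * β ^ j) * ‖d k‖ ^ 2) ∧
    x (k + 1) = y k (J k)

omit [FiniteDimensional ℝ E] in
theorem tan_of_small (X : Set E) (x v : E) (ε : ℝ) (hε : 0 < ε)
    (h : ∀ t : ℝ, 0 < t → t ≤ ε → x + t • v ∈ X) : v ∈ Tan X x := by
  refine ⟨fun k => ε * (1 / ((k : ℝ) + 1)), fun _ => v, fun k => by positivity, ?_, ?_,
    tendsto_const_nhds, fun k => h _ (by positivity) ?_⟩
  · intro a b hab
    have : (a : ℝ) ≤ b := by exact_mod_cast hab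
    dsimp only; gcongr
  · simpa using (tendsto_one_div_add_atTop_nhds_zero_nat (𝕜 := ℝ)).const_mul ε
  · have : (1 : ℝ) / ((k : ℝ) + 1) ≤ 1 := by
      rw [div_le_one (by positivity)]; have : (0 : ℝ) ≤ k := k.cast_nonneg; linarith
    nlinarith

theorem convex_free (X : Set E) (hc : Convex ℝ X) (hcl : IsClosed X) : ApocalypseFree X := by
  intro f U hU hXU hf x xs p hxs hlim hp hp0
  have hx : x ∈ X := hcl.mem_of_tendsto hlim (Eventually.of_forall hxs)
  have hg : Tendsto (fun k => gradient f (xs k)) atTop (𝓝 (gradient f x)) := by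
    have h1 : ContinuousAt (fderiv ℝ f) x :=
      (hf.continuousOn_fderiv_of_isOpen hU le_rfl).continuousAt (hU.mem_nhds (hXU hx))
    exact ((InnerProductSpace.toDual ℝ E).symm.continuous.continuousAt.comp h1).tendsto.comp hlim
  have key : ∀ y ∈ X, 0 ≤ ⟪gradient f x, y - x⟫ := by
    intro y hy
    -- for every s > 0 compare with the tangent vector s • (y - xs k)
    have h1 : ∀ s : ℝ, 0 < s → ∀ k,
        ‖-gradient f (xs k) - p k‖ ≤ ‖-gradient f (xs k) - s • (y - xs k)‖ := by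
      intro s hs k
      refine (hp k).2 _ (tan_of_small X _ _ s⁻¹ (by positivity) fun t ht hts => ?_)
      have : t * s ≤ 1 := by
        calc t * s ≤ s⁻¹ * s := by gcongr
          _ = 1 := inv_mul_cancel₀ hs.ne'
      rw [smul_smul]
      exact hc.add_smul_sub_mem (hxs k) hy ⟨by positivity, this⟩
    have hp0' : Tendsto p atTop (𝓝 0) := tendsto_zero_iff_norm_tendsto_zero.2 hp0
    have h2 : ∀ s : ℝ, 0 < s → ‖-gradient f x - 0‖ ≤ ‖-gradient f x - s • (y - x)‖ := fun s hs =>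
      le_of_tendsto_of_tendsto' (hg.neg.sub hp0').norm
        (hg.neg.sub ((tendsto_const_nhds.sub hlim).const_smul s)).norm (h1 s hs)
    by_contra hneg
    push Not at hneg
    set g := gradient f x
    set v := y - x
    have hv : 0 < ‖v‖ ^ 2 + 1 := by positivity
    set s := -⟪g, v⟫ / (‖v‖ ^ 2 + 1) with hs
    have hs0 : 0 < s := div_pos (by linarith) hv
    have h3 := h2 s hs0
    have h4 : ‖-g - s • v‖ ^ 2 = ‖g‖ ^ 2 + 2 * (s * ⟪g, v⟫) + s ^ 2 * ‖v‖ ^ 2 := by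
      rw [← neg_add', norm_neg, norm_add_sq_real, inner_smul_right, norm_smul, mul_pow,
        Real.norm_eq_abs, sq_abs]
    rw [sub_zero, norm_neg] at h3
    have h5 : ‖g‖ ^ 2 ≤ ‖-g - s • v‖ ^ 2 := by gcongr
    have h6 : s * (‖v‖ ^ 2 + 1) = -⟪g, v⟫ := by rw [hs]; field_simp
    have h7 : ⟪g, v⟫ = -(s * (‖v‖ ^ 2 + 1)) := by linarith
    rw [h4, h7] at h5
    nlinarith [mul_pos hs0 hs0, mul_nonneg (mul_pos hs0 hs0).le (sq_nonneg ‖v‖)]
  refine ⟨hx, ?_⟩
  rintro v ⟨t, w, ht, -, -, hw, hm⟩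
  refine ge_of_tendsto' (tendsto_const_nhds.inner hw) fun k => ?_
  have := key _ (hm k)
  rw [add_sub_cancel_left, inner_smul_right] at this
  exact nonneg_of_mul_nonneg_right (by simpa [mul_comm] using this) (ht k) |> fun h => h

abbrev P := EuclideanSpace ℝ (Fin 2)

def box : Set P := {z | 0 ≤ z 0 ∧ z 0 ≤ 4 ∧ 0 ≤ z 1 ∧ z 1 ≤ 4}

noncomputable def g : P := !₂[1, 2]

noncomputable def f (z : P) : ℝ := z 0 + 2 * z 1

theorem f_eq : f = fun z => ⟪g, z⟫ := by
  funext z; simp [f, g, PiLp.inner_apply, Fin.sum_univ_two, mul_comm]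

theorem grad (z : P) : gradient f z = g := by
  rw [f_eq]
  apply HasGradientAt.gradient
  rw [hasGradientAt_iff_hasFDerivAt]
  exact (InnerProductSpace.toDual ℝ P g).hasFDerivAt

noncomputable def xs (k : ℕ) : P := !₂[5 / 3 + 4 / 3 * (1 / 4) ^ k, 8 / 3 * (1 / 4) ^ k]

noncomputable def ys (k j : ℕ) : P :=
  !₂[5 / 3 + 4 / 3 * (1 / 4) ^ k - (1 / 4) ^ j, max 0 (8 / 3 * (1 / 4) ^ k - 2 * (1 / 4) ^ j)]

theorem pw (k : ℕ) : (0 : ℝ) < (1 / 4) ^ k ∧ ((1 : ℝ) / 4) ^ k ≤ 1 :=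
  ⟨by positivity, pow_le_one₀ (by norm_num) (by norm_num)⟩

theorem run : IsRun box f 1 (1 / 4) (1 / 2) xs := by
  refine ⟨by simp [box, xs]; norm_num, fun _ => -g, ys, id, fun k => ⟨?_, ?_, ?_, ?_, ?_⟩⟩
  · rw [grad]
    refine ⟨tan_of_small _ _ _ ((1 / 4) ^ k) (pw k).1 fun t ht h => ?_, fun q _ => by simp⟩
    have := pw k
    simp only [box, xs, g, Set.mem_setOf_eq, PiLp.add_apply, PiLp.smul_apply, PiLp.neg_apply,
      Matrix.cons_val_zero, Matrix.cons_val_one, smul_eq_mul]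
    refine ⟨?_, ?_, ?_, ?_⟩ <;> linarith [this.1, this.2]
  · intro j
    have h1 := pw k
    have h2 := pw j
    constructor
    · simp only [box, ys, Set.mem_setOf_eq, Matrix.cons_val_zero, Matrix.cons_val_one]
      refine ⟨by linarith [h1.1, h2.2], by linarith [h1.2, h2.1], le_max_left _ _, max_le (by norm_num) ?_⟩
      linarith [h1.2, h2.1]
    · rintro q ⟨-, -, hq, -⟩
      rw [EuclideanSpace.norm_eq, EuclideanSpace.norm_eq]
      apply Real.sqrt_le_sqrt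
      simp only [Fin.sum_univ_two, xs, ys, g, PiLp.sub_apply, PiLp.add_apply, PiLp.smul_apply,
        PiLp.neg_apply, Matrix.cons_val_zero, Matrix.cons_val_one, smul_eq_mul, Real.norm_eq_abs,
        sq_abs]
      set a : ℝ := (1 / 4) ^ k
      set b : ℝ := (1 / 4) ^ j
      rcases le_total 0 (8 / 3 * a - 2 * b) with h | h
      · rw [max_eq_right h]
        nlinarith [sq_nonneg (5 / 3 + 4 / 3 * a + 1 * b * -1 - q 0), sq_nonneg (8 / 3 * a + 1 * b * -2 - q 1)]
      · rw [max_eq_left h]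
        nlinarith [sq_nonneg (5 / 3 + 4 / 3 * a + 1 * b * -1 - q 0), sq_nonneg (q 1), mul_nonneg hq (neg_nonneg.2 h)]
  · have h1 := pw k
    have hn : ‖-g‖ ^ 2 = 5 := by
      rw [norm_neg, EuclideanSpace.norm_sq_eq]; simp [g, Fin.sum_univ_two]; norm_num
    rw [hn]
    simp only [f, xs, ys, id, Matrix.cons_val_zero, Matrix.cons_val_one]
    rw [max_eq_right (by linarith [h1.1])]
    linarith [h1.1]
  · intro j hj
    have h1 := pw k
    have hn : ‖-g‖ ^ 2 = 5 := by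
      rw [norm_neg, EuclideanSpace.norm_sq_eq]; simp [g, Fin.sum_univ_two]; norm_num
    rw [hn]
    have h2 : ((1 : ℝ) / 4) ^ k ≤ (1 / 4) ^ (j + 1) :=
      pow_le_pow_of_le_one (by norm_num) (by norm_num) hj
    rw [pow_succ] at h2
    simp only [f, xs, ys, Matrix.cons_val_zero, Matrix.cons_val_one]
    rw [max_eq_left (by linarith [h1.1])]
    linarith [h1.1]
  · have h1 := pw k
    ext i
    fin_cases i
    · simp [xs, ys, pow_succ]; ring
    · simp only [xs, ys, id, pow_succ]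
      rw [max_eq_right (by linarith [h1.1])]
      simp; ring

end H11.P2GD

open H11.P2GD in
theorem Pool.Agent.Results.MP_7a7a2a_an.Box.result :
    ∃ (X : Set (EuclideanSpace ℝ (Fin 2))) (f : EuclideanSpace ℝ (Fin 2) → ℝ) (a β c : ℝ)
      (x : ℕ → EuclideanSpace ℝ (Fin 2)) (z : EuclideanSpace ℝ (Fin 2)),
      X.Nonempty ∧ IsCompact X ∧ Convex ℝ X ∧ ApocalypseFree X ∧ ContDiff ℝ 1 f ∧
      (∃ K, LipschitzWith K (gradient f)) ∧ 0 < a ∧ β ∈ Set.Ioo (0 : ℝ) 1 ∧ c ∈ Set.Ioo (0 : ℝ) 1 ∧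
      IsRun X f a β c x ∧ Tendsto x atTop (𝓝 z) ∧ ¬ Stationary X f z := by
  have hcl : IsClosed box := by
    unfold box
    simp only [Set.setOf_and]
    refine (isClosed_le ?_ ?_).inter ((isClosed_le ?_ ?_).inter ((isClosed_le ?_ ?_).inter
      (isClosed_le ?_ ?_))) <;> fun_prop
  have hcv : Convex ℝ box := by
    rintro p ⟨p1, p2, p3, p4⟩ q ⟨q1, q2, q3, q4⟩ s t hs ht hst
    simp only [box, Set.mem_setOf_eq, PiLp.add_apply, PiLp.smul_apply, smul_eq_mul]
    refine ⟨by positivity, ?_, by positivity, ?_⟩ <;> nlinarith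
  refine ⟨box, f, 1, 1 / 4, 1 / 2, xs, !₂[5 / 3, 0], ⟨_, run.1⟩, ?_, hcv, convex_free _ hcv hcl,
    ?_, ⟨0, ?_⟩, one_pos, by norm_num, by norm_num, run, ?_, ?_⟩
  · refine Metric.isCompact_of_isClosed_isBounded hcl ?_
    refine (Metric.isBounded_closedBall (x := (0 : P)) (r := 6)).subset ?_
    rintro p ⟨p1, p2, p3, p4⟩
    rw [mem_closedBall_zero_iff, EuclideanSpace.norm_eq]
    apply Real.sqrt_le_iff.2
    simp only [Fin.sum_univ_two, Real.norm_eq_abs, sq_abs]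
    exact ⟨by norm_num, by nlinarith⟩
  · unfold f; fun_prop
  · have : gradient f = fun _ => g := funext grad
    rw [this]; exact LipschitzWith.const _
  · have h : Tendsto (fun k : ℕ => ((1 : ℝ) / 4) ^ k) atTop (𝓝 0) :=
      tendsto_pow_atTop_nhds_zero_of_lt_one (by norm_num) (by norm_num)
    have h2 : Continuous fun t : ℝ => (!₂[5 / 3 + 4 / 3 * t, 8 / 3 * t] : P) := by fun_prop
    have h3 := (h2.tendsto 0).comp h
    simp only [mul_zero, add_zero] at h3
    exact h3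
  · rintro ⟨-, h⟩
    have := h !₂[-1, 0] (tan_of_small _ _ _ 1 one_pos fun t ht h1 => by
      simp only [box, Set.mem_setOf_eq, PiLp.add_apply, PiLp.smul_apply, Matrix.cons_val_zero,
        Matrix.cons_val_one, smul_eq_mul]
      refine ⟨?_, ?_, ?_, ?_⟩ <;> linarith)
    rw [grad] at this
    simp [g, PiLp.inner_apply, Fin.sum_univ_two] at this
    linarith
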